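import Pool.Agent.TH668.Bil.Dots

set_option autoImplicit false

/-!
# Dot products and distances between two sets of lattice points meet record prime gaps

Let `α` be a real number with `|q α - p| ≥ c q ^ (-μ)` for all integers `q ≥ 1` and `p` (`μ = 1` for
quadratic irrationals). Let `A`, `B` be ARBITRARY sets of points with `d` coordinates in
`{0, …, N}` and `|A| |B| ≥ N ^ (d (2 - 1/μ) + ε)` (for `μ = 1` this is `N ^ (d + ε)`, while there are
about `N ^ (2 d)` pairs), and let `f`, `g` be ARBITRARY real functions on them. If all values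
`f a + α (a ⬝ b) + g b` are at least `N ^ ε`, then one of them lies in the middle of a run of at least
`κ log N (log₂ N)² log₄ N / (log₃ N)²` composite numbers on each side. Second part: the same for the
squares `α |a - b|²` of the Euclidean distances between the points of the two sets.

Proof (`Pool.Agent.TH668.Bil`). The inequality of Cauchy and Schwarz removes the functions and the
sets, and the remaining sum is a product of one-dimensional sums of geometric sums. The covering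
sieve of the starting library, in the form `Pool.Agent.TH915.PW.crit_scaled` (helper915), does the
rest.
-/

namespace Pool.Agent.Results.MP_926cc3_nt.DistancesBetweenTwoSets

/-- `L(x) = log x (log log x)^2 log log log log x / (log log log x)^2`. -/
noncomputable def L (x : ℝ) : ℝ :=
  Real.log x * (Real.log (Real.log x)) ^ 2 * Real.log (Real.log (Real.log (Real.log x))) /
    (Real.log (Real.log (Real.log x))) ^ 2

theorem result (d : ℕ) (μ ε : ℝ) (hμ : 1 ≤ μ) (hε : 0 < ε) :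
    (∃ κ : ℝ, 0 < κ ∧ ∀ c : ℝ, 0 < c → ∃ N₀ : ℕ, ∀ N : ℕ, N₀ ≤ N → ∀ α : ℝ,
      (∀ q : ℕ, 1 ≤ q → ∀ p : ℤ, c * (q : ℝ) ^ (-μ) ≤ |(q : ℝ) * α - p|) →
      ∀ A B : Finset (Fin d → ℕ), (∀ a ∈ A, ∀ i, a i ≤ N) → (∀ b ∈ B, ∀ i, b i ≤ N) →
      (N : ℝ) ^ (d * (2 - 1 / μ) + ε) ≤ A.card * B.card →
      ∀ f g : (Fin d → ℕ) → ℝ,
      (∀ a ∈ A, ∀ b ∈ B, (N : ℝ) ^ ε ≤ f a + α * (∑ i, (a i : ℝ) * b i) + g b) →
      ∃ a ∈ A, ∃ b ∈ B, ∀ q : ℕ, q.Prime →
        κ * L N < |(q : ℝ) - (f a + α * (∑ i, (a i : ℝ) * b i) + g b)|) ∧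
    (∃ κ : ℝ, 0 < κ ∧ ∀ c : ℝ, 0 < c → ∃ N₀ : ℕ, ∀ N : ℕ, N₀ ≤ N → ∀ α : ℝ,
      (∀ q : ℕ, 1 ≤ q → ∀ p : ℤ, c * (q : ℝ) ^ (-μ) ≤ |(q : ℝ) * α - p|) →
      ∀ A B : Finset (Fin d → ℕ), (∀ a ∈ A, ∀ i, a i ≤ N) → (∀ b ∈ B, ∀ i, b i ≤ N) →
      (N : ℝ) ^ (d * (2 - 1 / μ) + ε) ≤ A.card * B.card →
      (∀ a ∈ A, ∀ b ∈ B, (N : ℝ) ^ ε ≤ α * ∑ i, ((a i : ℝ) - b i) ^ 2) →
      ∃ a ∈ A, ∃ b ∈ B, ∀ q : ℕ, q.Prime →
        κ * L N < |(q : ℝ) - α * ∑ i, ((a i : ℝ) - b i) ^ 2|) :=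
  ⟨Pool.Agent.TH668.Bil.dots d μ ε hμ hε, Pool.Agent.TH668.Bil.distances d μ ε hμ hε⟩

end Pool.Agent.Results.MP_926cc3_nt.DistancesBetweenTwoSets
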