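import Pool.Agent.TH464.PO.BaseFam2

set_option autoImplicit false

/-!
# Almost primes in arithmetic progressions: patterns with prescribed surroundings

Let `m` be good if `q m + a` has at most `(D + 1) r` prime factors, all larger than `X ^ (1 / r)`.
Let `V` be the product of `1 - 1 / p` over the primes `p ≤ X ^ (1 / r)` not dividing `q`, and for
a finite set `B` let `V_B` be the product of `1 - ν(p) / p` over the same primes, `ν(p)` the
number of the residues mod `p` of the elements of `B`. The modulus `q ≤ X ^ D` may be as large as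
any fixed power of the length of the progression, and the progression may start anywhere up to `X
^ (D + 1)`; `q = 1` is the case of short intervals. Given `θ > 0`, a size `β` of patterns, a
number `w` of windows, a size `x` and an accuracy `ε`, for all `r ≥ r0` and all large `X`,
uniformly in all `q ≤ X ^ D` and `a ≤ X ^ (D + 1)` prime to `q`, in ALL intervals `(Z, Z + Y]`
inside `[0, 2 X]` of length `Y ≥ X ^ θ`, for ALL sets `B ⊆ [0, x / V]` of at most `β` elements and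
ALL disjoint windows `(u_i, v_i] ⊆ [0, x / V]` without elements of `B` and ALL finite sets `E_i`:
the number of the `n` in `(Z, Z + Y]` such that all `n + h`, `h ∈ B`, are good and the number of
the good integers in `(n + u_i, n + v_i]` lies in `E_i` for every `i` is `Y V_B` times the product
of the Poisson probabilities of the `E_i` for the means `(v_i - u_i) V`, up to `ε Y V_B`. So a run
without almost primes of any length `T ≤ x / V` ends at (or surrounds) a given pattern with the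
frequency `V_B e ^ (-T V)`.
-/

namespace Pool.Agent.Results.MP_926cc3_nt.PatternsAndRuns

open Finset Filter

/-- `N` has at most `B` prime factors (with multiplicity), all of them larger than `z`. -/
def AlmostPrime (B : ℕ) (z : ℝ) (N : ℕ) : Prop :=
  N.primeFactorsList.length ≤ B ∧ ∀ p : ℕ, p.Prime → p ∣ N → z < (p : ℝ)

/-- `m` is good: `q m + a` has at most `(D + 1) r` prime factors, all larger than `X ^ (1 / r)`. -/
def Good (D r X q a m : ℕ) : Prop :=
  AlmostPrime ((D + 1) * r) ((X : ℝ) ^ (1 / (r : ℝ))) (q * m + a)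

/-- The sieve density of the progression: the product of `1 - 1 / p` over the primes `p ≤ X ^ (1 / r)`
not dividing `q`. -/
noncomputable def V (r X q : ℕ) : ℝ :=
  ∏ p ∈ (Finset.range (⌊(X : ℝ) ^ (1 / (r : ℝ))⌋₊ + 1)).filter (fun p => p.Prime ∧ ¬ p ∣ q),
    (1 - 1 / (p : ℝ))

/-- The sieve density of the pattern `B`: the product of `1 - ν(p) / p` over the primes `p ≤ X ^ (1 / r)`
not dividing `q`, where `ν(p)` is the number of the residues mod `p` of the elements of `B`. -/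
noncomputable def VB (r X q : ℕ) (B : Finset ℕ) : ℝ :=
  ∏ p ∈ (Finset.range (⌊(X : ℝ) ^ (1 / (r : ℝ))⌋₊ + 1)).filter (fun p => p.Prime ∧ ¬ p ∣ q),
    (1 - ((B.image (fun h => h % p)).card : ℝ) / p)

open Classical in
/-- The number of the good `m` in `(u, v]`. -/
noncomputable def count (D r X q a : ℕ) (u v : ℕ) : ℕ :=
  ((Finset.Ioc u v).filter (fun m => Good D r X q a m)).card

/-- The probability of `E` for the Poisson distribution of mean `x`. -/
noncomputable def Poi (x : ℝ) (E : Finset ℕ) : ℝ :=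
  ∑ j ∈ E, Real.exp (-x) * x ^ j / j.factorial

open Pool.Agent.TH464.PO Pool.Agent.H373R2.T7 Pool.Agent.W123.RP

lemma fam (D : ℕ) (r : ℕ) (hr : 1 ≤ r) : ∀ᶠ X : ℕ in atTop, ∀ i : ℕ × ℕ,
    (1 ≤ i.1 ∧ i.1 ≤ X ^ D ∧ i.2 ≤ X ^ (D + 1) ∧ Nat.Coprime i.2 i.1) →
    ∃ u v : Fin 1 → ℤ, AF u v (X ^ D) ∧
      (∀ m ≤ 3 * X, Sf (QL u v) ⌊(X : ℝ) ^ (1 / (r : ℝ))⌋₊ m ↔ Good D r X i.1 i.2 m) ∧
      Vq (QL u v) ⌊(X : ℝ) ^ (1 / (r : ℝ))⌋₊ = V r X i.1 ∧
      ∀ B, Vq (QH (QL u v) B) ⌊(X : ℝ) ^ (1 / (r : ℝ))⌋₊ = VB r X i.1 B := by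
  filter_upwards [ap_fam D r hr] with X h i hi
  obtain ⟨h1, h2⟩ := h i.1 i.2 hi.1 hi.2.1 hi.2.2.1 hi.2.2.2
  exact ⟨_, _, h1, h2, V_ap i.1 i.2 hi.2.2.2 _, fun B => V_apB i.1 i.2 hi.2.2.2 B _⟩

open Classical in
/-- **Patterns of good integers with prescribed surroundings**, in all intervals. -/
theorem result (D : ℕ) (θ : ℝ) (hθ : 0 < θ) (β w : ℕ) (x ε : ℝ) (hε : 0 < ε) :
    ∃ r0 : ℕ, ∀ r : ℕ, r0 ≤ r → ∀ᶠ X : ℕ in atTop, ∀ q a : ℕ, 1 ≤ q → q ≤ X ^ D →
      a ≤ X ^ (D + 1) → Nat.Coprime a q → ∀ Z Y : ℕ, (X : ℝ) ^ θ ≤ Y →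
      Z + Y ≤ 2 * X → ∀ B : Finset ℕ, B.card ≤ β → (∀ h ∈ B, h * V r X q ≤ x) →
      ∀ u v : Fin w → ℕ, (∀ i, u i ≤ v i) → (∀ i, v i * V r X q ≤ x) →
      (∀ i j, i ≠ j → v i ≤ u j ∨ v j ≤ u i) → (∀ i, ∀ h ∈ B, h ≤ u i ∨ v i < h) →
      ∀ E : Fin w → Finset ℕ,
        |(((Finset.Ioc Z (Z + Y)).filter (fun n => (∀ h ∈ B, Good D r X q a (n + h)) ∧
            ∀ i, count D r X q a (n + u i) (n + v i) ∈ E i)).card : ℝ) -
          Y * VB r X q B * ∏ i, Poi (((v i : ℝ) - u i) * V r X q) (E i)| ≤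
            ε * (Y * VB r X q B) := by
  obtain ⟨r0, h⟩ := af_base D (fun X (i : ℕ × ℕ) => 1 ≤ i.1 ∧ i.1 ≤ X ^ D ∧ i.2 ≤ X ^ (D + 1) ∧ Nat.Coprime i.2 i.1)
    (fun r X i m => Good D r X i.1 i.2 m) (fun r X i => V r X i.1) (fun r X i B => VB r X i.1 B)
    (fam D) θ hθ β w x ε hε
  refine ⟨r0, fun r hr => ?_⟩
  filter_upwards [h r hr] with X hX q a hq hqX haX hco
  exact hX (q, a) ⟨hq, hqX, haX, hco⟩

end Pool.Agent.Results.MP_926cc3_nt.PatternsAndRuns
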